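import Pool.Agent.N822.TO.Stm

/-!
# Tube occupancy: number of cells that meet a box tube (helper434)
-/

set_option autoImplicit false

namespace Pool.Agent.N434.TO

open Pool.Agent.N822.TO

section

variable {D : ℕ} {m : ℕ → ℕ} (f : (k : ℕ) → (Fin D → Fin (m k)) → Fin (m k))

/-- the prefix of length `k` -/
def rs {k : ℕ} (p : Pre D m (k + 1)) : Pre D m k := fun i => p i.castSucc

/-- the last digit -/
def ls {k : ℕ} (p : Pre D m (k + 1)) : Fin D → Fin (m k) := p (Fin.last k)

theorem ext_rs_ls {k : ℕ} {p p' : Pre D m (k + 1)} (h1 : rs p = rs p') (h2 : ls p = ls p') :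
    p = p' := by
  funext i
  refine Fin.lastCases ?_ (fun i => ?_) i
  · exact h2
  · exact congrFun h1 i

theorem q_succ (k : ℕ) : q m (k + 1) = q m k * m k := Finset.prod_range_succ _ _

theorem q_pos (hm : ∀ k, 2 ≤ m k) (k : ℕ) : 0 < q m k :=
  Finset.prod_pos fun i _ => by have := hm i; omega

theorem pt_nonneg {m : ℕ} (f : (Fin D → Fin m) → Fin m) (i : Fin D → Fin m) (t : Fin (D + 1)) :
    0 ≤ pt f i t := by
  unfold pt
  refine Fin.cases ?_ (fun t => ?_) t
  · rw [Fin.cons_zero]; positivity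
  · rw [Fin.cons_succ]; positivity

theorem pt_le {m : ℕ} (f : (Fin D → Fin m) → Fin m) (i : Fin D → Fin m) (t : Fin (D + 1)) :
    pt f i t + 1 ≤ m := by
  unfold pt
  refine Fin.cases ?_ (fun t => ?_) t
  · rw [Fin.cons_zero]
    exact_mod_cast (f i).isLt
  · rw [Fin.cons_succ]
    exact_mod_cast (i t).isLt

theorem corner_succ {k : ℕ} (p : Pre D m (k + 1)) (t : Fin (D + 1)) :
    corner f p t = corner f (rs p) t + pt (f k) (ls p) t / (q m (k + 1) : ℝ) := by
  unfold corner
  rw [Fin.sum_univ_castSucc]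
  rfl

theorem cell_sub (hm : ∀ k, 2 ≤ m k) {k : ℕ} (p : Pre D m (k + 1)) :
    cell f p ⊆ cell f (rs p) := by
  intro x hx t
  obtain ⟨h1, h2⟩ := hx t
  rw [corner_succ] at h1 h2
  have hq : (0 : ℝ) < q m (k + 1) := by exact_mod_cast q_pos hm (k + 1)
  have hq0 : (0 : ℝ) < q m k := by exact_mod_cast q_pos hm k
  have hmk : (0 : ℝ) < m k := by
    have := hm k
    exact_mod_cast (by omega : 0 < m k)
  have e1 := pt_nonneg (f k) (ls p) t
  have e2 := pt_le (f k) (ls p) t
  have e3 : 0 ≤ pt (f k) (ls p) t / (q m (k + 1) : ℝ) := by positivity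
  have e4 : pt (f k) (ls p) t / (q m (k + 1) : ℝ) + 1 / (q m (k + 1) : ℝ) ≤ 1 / (q m k : ℝ) := by
    rw [← add_div, div_le_div_iff₀ hq hq0, q_succ]
    push_cast
    nlinarith
  constructor
  · linarith
  · linarith

theorem digit {k : ℕ} (hm : ∀ k, 2 ≤ m k) {j : Fin (D + 1)} {α β : Fin (D + 1) → ℝ} {ρ : ℝ}
    (hα : ∀ i, |α i| ≤ 1) (hρ : ρ * (q m (k + 1) : ℝ) ≤ 1) {p : Pre D m (k + 1)}
    (h : (cell f p ∩ box j α β ρ).Nonempty) (s : Fin (D + 1)) (hs : s ≠ j) :
    |pt (f k) (ls p) s - α s * pt (f k) (ls p) j - (q m (k + 1) : ℝ) *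
      (β s - corner f (rs p) s + α s * corner f (rs p) j)| ≤ 3 := by
  obtain ⟨x, hx, hb⟩ := h
  have hq : (0 : ℝ) < q m (k + 1) := by exact_mod_cast q_pos hm (k + 1)
  set Q : ℝ := (q m (k + 1) : ℝ) with hQ
  have hy : ∀ t, ∃ y : ℝ, 0 ≤ y ∧ y ≤ 1 ∧
      Q * x t = Q * corner f (rs p) t + pt (f k) (ls p) t + y := by
    intro t
    obtain ⟨h1, h2⟩ := hx t
    refine ⟨Q * (x t - corner f p t), mul_nonneg hq.le (by linarith), ?_, ?_⟩
    · have : Q * (x t - corner f p t) ≤ Q * (1 / Q) :=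
        mul_le_mul_of_nonneg_left (by linarith) hq.le
      rwa [mul_one_div, div_self hq.ne'] at this
    · rw [corner_succ]
      rw [← hQ]
      field_simp
      ring
  obtain ⟨y, hy0, hy1, hys⟩ := hy s
  obtain ⟨y', hy0', hy1', hyj⟩ := hy j
  have hbs := hb s hs
  have e1 : pt (f k) (ls p) s - α s * pt (f k) (ls p) j -
      Q * (β s - corner f (rs p) s + α s * corner f (rs p) j) =
      Q * (x s - α s * x j - β s) - (y - α s * y') := by
    linear_combination (-1 : ℝ) * hys + α s * hyj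
  rw [e1]
  have e2 : |Q * (x s - α s * x j - β s)| ≤ 1 := by
    rw [abs_mul, abs_of_pos hq]
    calc Q * |x s - α s * x j - β s| ≤ Q * ρ := mul_le_mul_of_nonneg_left hbs hq.le
      _ ≤ 1 := by linarith
  have e3 : |y - α s * y'| ≤ 2 := by
    have h1 := hα s
    have h2 : |α s * y'| ≤ 1 := by
      rw [abs_mul, abs_of_nonneg hy0']
      calc |α s| * y' ≤ 1 * 1 := mul_le_mul h1 hy1' hy0' (by norm_num)
        _ = 1 := one_mul 1
    have h3 := abs_le.1 h2
    rw [abs_le]
    constructor <;> linarith [h3.1, h3.2]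
  calc |Q * (x s - α s * x j - β s) - (y - α s * y')| ≤
      |Q * (x s - α s * x j - β s)| + |y - α s * y'| := abs_sub _ _
    _ ≤ 3 := by linarith

open Classical in
theorem thin (hm : ∀ k, 2 ≤ m k) (L : ℕ → ℕ)
    (hL : ∀ (k : ℕ) (j : Fin (D + 1)) (α β : Fin (D + 1) → ℝ), (∀ i, |α i| ≤ 1) →
      cnt (f k) j α β ≤ L k) (j : Fin (D + 1)) (α β : Fin (D + 1) → ℝ) (hα : ∀ i, |α i| ≤ 1)
    (ρ : ℝ) (hρ0 : 0 ≤ ρ) : ∀ n : ℕ, ρ * (q m n : ℝ) ≤ 1 →
    (Finset.univ.filter fun p : Pre D m n => (cell f p ∩ box j α β ρ).Nonempty).card ≤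
      ∏ k ∈ Finset.range n, L k := by
  intro n
  induction n with
  | zero =>
    intro _
    rw [Finset.prod_range_zero]
    refine (Finset.card_le_univ _).trans ?_
    have : Subsingleton (Pre D m 0) := ⟨fun a b => funext fun i => i.elim0⟩
    exact Fintype.card_le_one_iff_subsingleton.2 this
  | succ k ih =>
    intro hρ
    have hρ' : ρ * (q m k : ℝ) ≤ 1 := by
      have h1 : (q m k : ℝ) ≤ q m (k + 1) := by
        rw [q_succ]
        have := hm k
        exact_mod_cast Nat.le_mul_of_pos_right (q m k) (by omega)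
      exact (mul_le_mul_of_nonneg_left h1 hρ0).trans hρ
    have ih' := ih hρ'
    set s' := Finset.univ.filter fun p : Pre D m (k + 1) => (cell f p ∩ box j α β ρ).Nonempty
      with hs'
    set s := Finset.univ.filter fun p : Pre D m k => (cell f p ∩ box j α β ρ).Nonempty with hs
    have h1 : s'.card ≤ L k * (s'.image rs).card := by
      apply Finset.card_le_mul_card_image
      intro b _
      have h2 := hL k j α (fun t => (q m (k + 1) : ℝ) *
        (β t - corner f b t + α t * corner f b j)) hα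
      refine le_trans ?_ h2
      unfold cnt
      rw [Nat.card_eq_fintype_card, ← Fintype.card_coe]
      refine Fintype.card_le_of_injective
        (fun p : (s'.filter fun p => rs p = b) => ⟨ls p.1, ?_⟩) ?_
      · obtain ⟨p, hp⟩ := p
        obtain ⟨hp1, hp2⟩ := Finset.mem_filter.1 hp
        rw [hs', Finset.mem_filter] at hp1
        intro t ht
        have := digit f hm hα hρ hp1.2 t ht
        rw [hp2] at this
        exact this
      · rintro ⟨p, hp⟩ ⟨p', hp'⟩ h
        have h3 : ls p = ls p' := congrArg Subtype.val h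
        have h4 := (Finset.mem_filter.1 hp).2
        have h5 := (Finset.mem_filter.1 hp').2
        exact Subtype.ext (ext_rs_ls (h4.trans h5.symm) h3)
    have h2 : s'.image rs ⊆ s := by
      intro b hb
      obtain ⟨p, hp, rfl⟩ := Finset.mem_image.1 hb
      rw [hs', Finset.mem_filter] at hp
      rw [hs, Finset.mem_filter]
      refine ⟨Finset.mem_univ _, ?_⟩
      obtain ⟨x, hx, hb⟩ := hp.2
      exact ⟨x, cell_sub f hm p hx, hb⟩
    rw [Finset.prod_range_succ, mul_comm]
    exact h1.trans (Nat.mul_le_mul_left _ ((Finset.card_le_card h2).trans ih'))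

end

open Classical in
theorem count : S_COUNT := by
  intro D m f L _ hm hL n j α β w hα hw
  have hq : (0 : ℝ) < q m n := by exact_mod_cast q_pos hm n
  set Q : ℝ := (q m n : ℝ) with hQ
  set M : ℕ := ⌊w * Q⌋₊ with hM
  let βu : ({s : Fin (D + 1) // s ≠ j} → Fin (M + 1)) → Fin (D + 1) → ℝ := fun u s =>
    if h : s ≠ j then β s - w + (2 * ((u ⟨s, h⟩ : ℕ) : ℝ) + 1) / Q else 0
  have hsub : (Finset.univ.filter fun p : Pre D m n => (cell f p ∩ box j α β w).Nonempty) ⊆
      (Finset.univ : Finset ({s : Fin (D + 1) // s ≠ j} → Fin (M + 1))).biUnion fun u =>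
        Finset.univ.filter fun p : Pre D m n => (cell f p ∩ box j α (βu u) (1 / Q)).Nonempty := by
    intro p hp
    obtain ⟨x, hx, hb⟩ := (Finset.mem_filter.1 hp).2
    rw [Finset.mem_biUnion]
    have hu : ∀ s : {s : Fin (D + 1) // s ≠ j},
        ⌊(x s.1 - α s.1 * x j - β s.1 + w) * Q / 2⌋₊ < M + 1 := by
      intro s
      have h1 := abs_le.1 (hb s.1 s.2)
      rw [Nat.lt_succ_iff, hM]
      apply Nat.floor_le_floor
      rw [div_le_iff₀ (by norm_num)]
      nlinarith [h1.2]
    refine ⟨fun s => ⟨_, hu s⟩, Finset.mem_univ _, ?_⟩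
    rw [Finset.mem_filter]
    refine ⟨Finset.mem_univ _, x, hx, ?_⟩
    intro s hs
    have h1 := abs_le.1 (hb s hs)
    set v : ℝ := (x s - α s * x j - β s + w) * Q / 2 with hv
    have hv0 : 0 ≤ v := by
      rw [hv]
      have : 0 ≤ x s - α s * x j - β s + w := by linarith [h1.1]
      positivity
    have hf1 := Nat.floor_le hv0
    have hf2 := Nat.lt_floor_add_one v
    have e1 : βu (fun s => ⟨_, hu s⟩) s = β s - w + (2 * ((⌊v⌋₊ : ℕ) : ℝ) + 1) / Q := by
      simp only [βu]
      rw [dif_pos hs]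
    rw [e1]
    have e2 : x s - α s * x j - (β s - w + (2 * ((⌊v⌋₊ : ℕ) : ℝ) + 1) / Q) =
        (2 * (v - (⌊v⌋₊ : ℕ)) - 1) / Q := by
      rw [hv]
      field_simp
      ring
    rw [e2, abs_div, abs_of_pos hq]
    apply div_le_div_of_nonneg_right _ hq.le
    rw [abs_le]
    constructor <;> linarith
  have h1 : (Finset.univ.filter fun p : Pre D m n => (cell f p ∩ box j α β w).Nonempty).card ≤
      (M + 1) ^ D * ∏ k ∈ Finset.range n, L k := by
    refine (Finset.card_le_card hsub).trans ?_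
    refine Finset.card_biUnion_le.trans ?_
    have h2 : ∀ u ∈ (Finset.univ : Finset ({s : Fin (D + 1) // s ≠ j} → Fin (M + 1))),
        (Finset.univ.filter fun p : Pre D m n =>
          (cell f p ∩ box j α (βu u) (1 / Q)).Nonempty).card ≤ ∏ k ∈ Finset.range n, L k := by
      intro u _
      refine thin f hm L hL j α (βu u) hα (1 / Q) (by positivity) n ?_
      rw [← hQ, one_div, inv_mul_cancel₀ hq.ne']
    refine (Finset.sum_le_card_nsmul _ _ _ h2).trans ?_
    rw [smul_eq_mul, Finset.card_univ, Fintype.card_fun, Fintype.card_fin]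
    have h3 : Fintype.card {s : Fin (D + 1) // s ≠ j} = D := by
      have := Fintype.card_subtype_compl (fun s : Fin (D + 1) => s = j)
      rw [Fintype.card_subtype_eq, Fintype.card_fin] at this
      exact this
    rw [h3]
  rw [Nat.card_eq_fintype_card, Fintype.card_subtype]
  have h4 : ((M : ℝ) + 1) ^ D ≤ (w * Q + 1) ^ D := by
    apply pow_le_pow_left₀ (by positivity)
    have : (M : ℝ) ≤ w * Q := Nat.floor_le (by positivity)
    linarith
  calc ((Finset.univ.filter fun p : Pre D m n => (cell f p ∩ box j α β w).Nonempty).card : ℝ)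
      ≤ (((M + 1) ^ D * ∏ k ∈ Finset.range n, L k : ℕ) : ℝ) := by exact_mod_cast h1
    _ = ((M : ℝ) + 1) ^ D * ∏ k ∈ Finset.range n, (L k : ℝ) := by push_cast; rfl
    _ ≤ _ := mul_le_mul_of_nonneg_right h4 (Finset.prod_nonneg fun k _ => Nat.cast_nonneg _)

end Pool.Agent.N434.TO
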